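import Pool.Agent.H89.WO3

set_option autoImplicit false

namespace Pool.Agent.Results.MP_b29b59_lc.Tower

open Set FirstOrder FirstOrder.Language Cardinal Pool.Agent.H89.WO

/-- every subset of `M` definable with parameters is a finite union of convex sets -/
def WeaklyOMinimal (L : FirstOrder.Language.{0, 0}) (M : Type) [LinearOrder M] [L.Structure M] :
    Prop :=
  ∀ S : Set M, (univ : Set M).Definable₁ L S →
    ∃ C : Set (Set M), C.Finite ∧ (∀ c ∈ C, c.OrdConnected) ∧ S = ⋃₀ C

/-- the language with exactly one symbol, a unary predicate -/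
def unary : FirstOrder.Language.{0, 0} := ⟨fun _ => Empty, fun n => PLift (n = 1)⟩

/-- the unary predicate interpreted as `U` -/
@[reducible] def unaryStr {M : Type} (U : Set M) : unary.Structure M where
  funMap f := Empty.elim f
  RelMap r v := v (Fin.cast r.down.symm 0) ∈ U

/-- the complete theory of the expansion `(M, U)` -/
def expTheory (L : FirstOrder.Language.{0, 0}) (M : Type) [L.Structure M] (U : Set M) :
    (L.sum unary).Theory :=
  letI := unaryStr U
  (L.sum unary).completeTheory M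

def L0 : FirstOrder.Language.{0, 0} := ⟨fun _ => Empty, fun n => {S : (Fin n → X) → Prop // Inv S}⟩

instance : L0.Structure X where
  funMap f := Empty.elim f
  RelMap r v := r.1 v

instance : L0.IsRelational := fun _ => inferInstanceAs (IsEmpty Empty)

theorem card0 : L0.card ≤ aleph0 := by
  have : ∀ n, Finite (L0.Relations n) := fun n => by
    obtain ⟨κ, _, σ, h⟩ := orbits n
    have k : ∀ S T : L0.Relations n, σ '' {x | S.1 x} = σ '' {x | T.1 x} → ∀ x, S.1 x → T.1 x :=
      fun S T e x hx => by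
        obtain ⟨y, hy, e⟩ := e ▸ mem_image_of_mem σ (show x ∈ {x | S.1 x} from hx)
        obtain ⟨g, g1, g2⟩ := h _ _ e
        exact (funext g2 : g ∘ y = x) ▸ T.2 g g1 y hy
    exact Finite.of_injective (fun S : L0.Relations n => σ '' {x | S.1 x}) fun S T e =>
      Subtype.ext (funext fun x => propext ⟨k S T e x, k T S e.symm x⟩)
  exact mk_le_aleph0_iff.2 (inferInstanceAs
    (Countable ((Σ l, L0.Functions l) ⊕ Σ l, L0.Relations l)))

def aut (g : X ≃o X) (hg : g ∈ G) : X ≃[L0] X where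
  toEquiv := g.toEquiv
  map_fun' f := Empty.elim f
  map_rel' r x := ⟨fun h => by
    have := r.2 g⁻¹ (G.inv_mem hg) _ h
    rwa [show ⇑g⁻¹ ∘ g.toEquiv.toFun ∘ x = x from funext fun i => g.symm_apply_apply _] at this,
    r.2 g hg x⟩

theorem result : ∃ (L : FirstOrder.Language.{0, 0}) (M : Type) (_ : LinearOrder M)
    (_ : L.Structure M) (lt : L.Relations 2) (U : Set M),
    L.card ≤ aleph0 ∧ #M = aleph0 ∧ (∀ a b : M, Structure.RelMap lt ![a, b] ↔ a < b) ∧
    WeaklyOMinimal L M ∧ Categorical aleph0.{0} (L.completeTheory M) ∧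
    U.OrdConnected ∧ ¬Categorical aleph0.{0} (expTheory L M U) := by
  have hX : #X = aleph0 := mk_eq_aleph0 X
  refine ⟨L0, X, inferInstance, inferInstance, ⟨fun x => x 0 < x 1, fun g _ _ h => g.strictMono h⟩,
    U, card0, hX, fun _ _ => Iff.rfl, fun S hS => ?_, cat X fun ι _ => ?_,
    ⟨fun _ _ _ ⟨n, hn⟩ _ h => ⟨n, h.2.trans_lt hn⟩⟩, ?_⟩
  · obtain ⟨A, -, hA⟩ := definable_iff_finitely_definable.1 hS
    obtain ⟨φ, hφ⟩ := definable_iff_exists_formula_sum.1 hA
    obtain ⟨κ, _, τ, t1, t2⟩ := pieces A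
    refine ⟨(fun k => τ ⁻¹' {k}) '' (τ '' S), (toFinite _).image _, ?_, ?_⟩
    · rintro _ ⟨k, -, rfl⟩; exact t1 k
    · rw [sUnion_image, biUnion_image]
      refine Subset.antisymm (fun x hx => mem_biUnion hx rfl) (iUnion₂_subset fun x hx y hy => ?_)
      obtain ⟨g, g1, g2, rfl⟩ := t2 x y (Eq.symm hy)
      have a := (Set.ext_iff.1 hφ fun _ => x).1 hx
      refine (Set.ext_iff.1 hφ fun _ => g x).2 ?_
      have b := (StrongHomClass.realize_formula (aut g g1) φ).2 a
      convert b using 1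
      refine iff_of_eq (congrArg φ.Realize (funext ?_))
      rintro (a | a)
      exacts [(g2 a.1 a.2).symm, rfl]
  · obtain ⟨n, ⟨f⟩⟩ := Finite.exists_equiv_fin ι
    obtain ⟨κ, _, σ, h⟩ := orbits n
    let r : κ → L0.Relations n := fun k =>
      ⟨fun x => ∃ y, σ y = k ∧ ∃ g ∈ G, g ∘ y = x, by
        rintro g hg _ ⟨y, h1, g', h2, rfl⟩
        exact ⟨y, h1, g * g', G.mul_mem hg h2, rfl⟩⟩
    refine ⟨κ, inferInstance, fun k => (r k).formula fun i => Term.var (f.symm i), fun x =>
      ⟨σ (x ∘ f.symm), Formula.realize_rel.2 ⟨_, rfl, 1, G.one_mem, rfl⟩⟩, fun k x y hx hy => ?_⟩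
    obtain ⟨a, a1, g, g1, g2⟩ := Formula.realize_rel.1 hx
    obtain ⟨b, b1, g', g1', g2'⟩ := Formula.realize_rel.1 hy
    obtain ⟨l, l1, l2⟩ := h a b (a1.trans b1.symm)
    refine ⟨aut (g' * l * g⁻¹) (G.mul_mem (G.mul_mem g1' l1) (G.inv_mem g1)), funext fun i => ?_⟩
    have c : g (a (f i)) = x i := (congrFun g2 (f i)).trans (by simp)
    have d : g' (b (f i)) = y i := (congrFun g2' (f i)).trans (by simp)
    change g' (l (g.symm (x i))) = y i
    rw [← c, g.symm_apply_apply, l2, d]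
  · letI := unaryStr U
    choose φ hφ using fun n s => (dP n s).formula (L := L0.sum unary)
      (fun n S h => ⟨Sum.inl ⟨S, h⟩, fun _ => Iff.rfl⟩) ⟨Sum.inr ⟨rfl⟩, fun _ => Iff.rfl⟩
    refine noncat ?_ X hX φ (fun n s => ?_) fun s s' w h h' => funext fun n =>
      P_uniq n _ _ _ _ ((hφ _ _ _).1 (h _)) ((hφ _ _ _).1 (h' _))
    · rw [card_sum, lift_id, lift_id]
      exact add_le_aleph0.2 ⟨card0, mk_le_aleph0_iff.2 (inferInstanceAs
        (Countable ((Σ _ : ℕ, Empty) ⊕ Σ l : ℕ, PLift (l = 1))))⟩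
    · obtain ⟨a, b, -, -, h⟩ := P_ex n s
      refine ⟨![a, b], fun k hk => (hφ _ _ _).2 ?_⟩
      induction hk with
      | refl => exact h
      | step _ ih => exact ih (P_mono _ _ _ _ h)

end Pool.Agent.Results.MP_b29b59_lc.Tower
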